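import Mathlib

/-!
# Affine maps of order `|G|` on groups of small commuting probability

For a prime `p` let `G = AGL(1, p)`, the group of the maps `x ↦ u x + v` of the field with `p`
elements, of order `p (p - 1)`.  Let `a` be a translation of order `p` and `b` the multiplication by
a primitive root.  The map `x ↦ a x b⁻¹ = (a b⁻¹) (b x b⁻¹)` is an affine map of `G`, and it permutes
all the elements of `G` in a single cycle, because a power of `a` is conjugate to the same power of
`b` only if both are trivial.  On the other hand `G` has (at most) `p` conjugacy classes, so that its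
commuting probability is at most `1 / (p - 1)`.
-/

set_option autoImplicit false

namespace Pool.Agent.Results.MP_1004d8_al.AffineCycleSmallCp

/-- The affine map `x ↦ g * α x` of a group, as a permutation of the group. -/
def affineMap {G : Type} [Group G] (g : G) (α : MulAut G) : Equiv.Perm G :=
  α.toEquiv.trans (Equiv.mulLeft g)

lemma affineMap_apply {G : Type} [Group G] (g : G) (α : MulAut G) (x : G) :
    affineMap g α x = g * α x := rfl

/-- The affine group of the ring `R`: `⟨v, u⟩` is `x ↦ u x + v`. -/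
@[ext] structure Aff (R : Type) [CommRing R] where
  v : R
  u : Rˣ

namespace Aff

variable {R : Type} [CommRing R]

instance : Mul (Aff R) := ⟨fun x y => ⟨x.v + x.u * y.v, x.u * y.u⟩⟩
instance : One (Aff R) := ⟨⟨0, 1⟩⟩
instance : Inv (Aff R) := ⟨fun x => ⟨-((x.u⁻¹ : Rˣ) * x.v), x.u⁻¹⟩⟩

@[simp] lemma mul_v (x y : Aff R) : (x * y).v = x.v + x.u * y.v := rfl
@[simp] lemma mul_u (x y : Aff R) : (x * y).u = x.u * y.u := rfl
@[simp] lemma one_v : (1 : Aff R).v = 0 := rfl
@[simp] lemma one_u : (1 : Aff R).u = 1 := rfl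
@[simp] lemma inv_v (x : Aff R) : (x⁻¹).v = -((x.u⁻¹ : Rˣ) * x.v) := rfl
@[simp] lemma inv_u (x : Aff R) : (x⁻¹).u = x.u⁻¹ := rfl

instance : Group (Aff R) :=
  Group.ofLeftAxioms
    (by intro x y z; ext <;> simp [mul_add, mul_assoc, add_assoc])
    (by intro x; ext <;> simp)
    (by intro x; ext <;> simp)

/-- The linear part. -/
def lin : Aff R →* Rˣ where
  toFun x := x.u
  map_one' := rfl
  map_mul' _ _ := rfl

/-- The translation by `r`. -/
def tr : Multiplicative R →* Aff R where
  toFun r := ⟨Multiplicative.toAdd r, 1⟩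
  map_one' := rfl
  map_mul' x y := by ext <;> simp

/-- The multiplication by a unit. -/
def mu : Rˣ →* Aff R where
  toFun u := ⟨0, u⟩
  map_one' := rfl
  map_mul' x y := by ext <;> simp

/-- As a set, the group is the product of `R` and its group of units. -/
def equiv : Aff R ≃ R × Rˣ where
  toFun x := (x.v, x.u)
  invFun x := ⟨x.1, x.2⟩
  left_inv _ := rfl
  right_inv _ := rfl

end Aff

open Aff

section prime

variable (p : ℕ) [Fact p.Prime]

instance : Finite (Aff (ZMod p)) := Finite.of_equiv _ Aff.equiv.symm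

lemma card_aff : Nat.card (Aff (ZMod p)) = p * (p - 1) := by
  rw [Nat.card_congr Aff.equiv, Nat.card_prod, Nat.card_zmod, Nat.card_eq_fintype_card,
    ZMod.card_units]

/-- The affine group of the prime field has at most `p` conjugacy classes. -/
lemma card_conj : Nat.card (ConjClasses (Aff (ZMod p))) ≤ p := by
  let f : Option (ZMod p)ˣ → ConjClasses (Aff (ZMod p)) := fun o =>
    match o with
    | none => ConjClasses.mk ⟨1, 1⟩
    | some u => ConjClasses.mk ⟨0, u⟩
  have hf : Function.Surjective f := by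
    intro C
    obtain ⟨x, rfl⟩ := ConjClasses.exists_rep C
    by_cases hu : x.u = 1
    · by_cases hv : x.v = 0
      · refine ⟨some 1, ?_⟩
        have : x = ⟨0, 1⟩ := by ext <;> simp [hu, hv]
        rw [this]
      · refine ⟨none, ?_⟩
        change ConjClasses.mk _ = ConjClasses.mk _
        rw [ConjClasses.mk_eq_mk_iff_isConj, isConj_iff]
        refine ⟨⟨0, Units.mk0 x.v hv⟩, ?_⟩
        ext <;> simp [hu]
    · refine ⟨some x.u, ?_⟩
      change ConjClasses.mk _ = ConjClasses.mk _
      rw [ConjClasses.mk_eq_mk_iff_isConj, isConj_iff]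
      have hne : (1 : ZMod p) - x.u ≠ 0 := by
        intro h
        exact hu (Units.ext (by rw [sub_eq_zero] at h; simpa using h.symm))
      refine ⟨⟨x.v / (1 - x.u), 1⟩, ?_⟩
      ext
      · simp
        field_simp
        ring
      · simp
  have h1 := Nat.card_le_card_of_surjective f hf
  have h2 : Nat.card (Option (ZMod p)ˣ) = p := by
    rw [Nat.card_eq_fintype_card, Fintype.card_option, ZMod.card_units]
    have := (Fact.out : p.Prime).pos
    omega
  omega

lemma commProb_le : commProb (Aff (ZMod p)) ≤ 1 / ((p : ℚ) - 1) := by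
  have hp := (Fact.out : p.Prime).two_le
  rw [commProb_def', card_aff]
  have h1 : (Nat.card (ConjClasses (Aff (ZMod p))) : ℚ) ≤ p := by exact_mod_cast card_conj p
  have h2 : ((p * (p - 1) : ℕ) : ℚ) = p * ((p : ℚ) - 1) := by
    rw [Nat.cast_mul, Nat.cast_sub (by omega)]; simp
  rw [h2]
  have h3 : (0 : ℚ) < (p : ℚ) - 1 := by
    have : (2 : ℚ) ≤ p := by exact_mod_cast hp
    linarith
  have h4 : (0 : ℚ) < p := by positivity
  rw [div_le_div_iff₀ (by positivity) h3]
  nlinarith

/-- The affine map. -/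
lemma exists_cycle : ∃ (α : MulAut (Aff (ZMod p))) (g : Aff (ZMod p)),
    orderOf (affineMap g α) = Nat.card (Aff (ZMod p)) ∧
    ∀ x y, ∃ n : ℕ, (affineMap g α ^ n) x = y := by
  obtain ⟨w, hw⟩ := IsCyclic.exists_generator (α := (ZMod p)ˣ)
  have hwo : orderOf w = p - 1 := by
    rw [orderOf_eq_card_of_forall_mem_zpowers hw, Nat.card_eq_fintype_card, ZMod.card_units]
  let a : Aff (ZMod p) := tr (Multiplicative.ofAdd 1)
  let b : Aff (ZMod p) := mu w
  have hA : ∀ (n : ℕ) (x : Aff (ZMod p)),
      (affineMap (a * b⁻¹) (MulAut.conj b) ^ n) x = a ^ n * x * (b ^ n)⁻¹ := by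
    intro n
    induction n with
    | zero => intro x; simp
    | succ n ih =>
      intro x
      rw [pow_succ', Equiv.Perm.mul_apply, ih, affineMap_apply, MulAut.conj_apply]
      rw [pow_succ', pow_succ]
      group
  have hau : ∀ n : ℕ, lin (a ^ n) = 1 := by
    intro n
    rw [map_pow]
    exact one_pow n
  have hbu : ∀ n : ℕ, lin (b ^ n) = w ^ n := by
    intro n
    rw [map_pow]
    rfl
  have han : ∀ n : ℕ, a ^ n = tr (Multiplicative.ofAdd (n : ZMod p)) := by
    intro n
    rw [← map_pow, ← ofAdd_nsmul]; simp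
  have key : ∀ (n : ℕ) (x : Aff (ZMod p)), a ^ n * x * (b ^ n)⁻¹ = x → p * (p - 1) ∣ n := by
    intro n x hx
    have h1 : w ^ n = 1 := by
      have := congrArg lin hx
      rw [map_mul, map_mul, map_inv, hau, hbu, one_mul] at this
      have h2 := mul_eq_left.mp this
      rwa [inv_eq_one] at h2
    have h2 : p - 1 ∣ n := by rw [← hwo]; exact orderOf_dvd_of_pow_eq_one h1
    have h3 : b ^ n = 1 := by rw [← map_pow, h1, map_one]
    rw [h3, inv_one, mul_one] at hx
    have h4 : a ^ n = 1 := mul_eq_right.mp hx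
    have h5 : (n : ZMod p) = 0 := by
      have := congrArg Aff.v ((han n).symm.trans h4)
      exact this
    have h6 : p ∣ n := (ZMod.natCast_eq_zero_iff n p).mp h5
    refine Nat.Coprime.mul_dvd_of_dvd_of_dvd ?_ h6 h2
    have hp := (Fact.out : p.Prime)
    rw [Nat.Prime.coprime_iff_not_dvd hp]
    intro h
    have := Nat.le_of_dvd (by have := hp.two_le; omega) h
    have := hp.two_le
    omega
  have key2 : ∀ n : ℕ, p * (p - 1) ∣ n → ∀ x : Aff (ZMod p), a ^ n * x * (b ^ n)⁻¹ = x := by
    intro n hn x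
    have h1 : w ^ n = 1 := by
      rw [← orderOf_dvd_iff_pow_eq_one, hwo]
      exact (Dvd.intro_left p rfl).trans hn
    have h3 : b ^ n = 1 := by rw [← map_pow, h1, map_one]
    have h4 : a ^ n = 1 := by
      rw [han, (ZMod.natCast_eq_zero_iff n p).mpr ((Dvd.intro _ rfl).trans hn)]
      rfl
    rw [h3, h4]; simp
  refine ⟨MulAut.conj b, a * b⁻¹, ?_, ?_⟩
  · rw [card_aff]
    apply Nat.dvd_antisymm
    · apply orderOf_dvd_of_pow_eq_one
      ext1 x
      rw [hA, key2 _ dvd_rfl]
      rfl
    · apply key _ 1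
      rw [← hA, pow_orderOf_eq_one]
      rfl
  · intro x y
    let F : Fin (p * (p - 1)) → Aff (ZMod p) := fun n => a ^ (n : ℕ) * x * (b ^ (n : ℕ))⁻¹
    have hFinj : Function.Injective F := by
      have aux : ∀ m n : ℕ, m ≤ n → n < p * (p - 1) →
          a ^ m * x * (b ^ m)⁻¹ = a ^ n * x * (b ^ n)⁻¹ → m = n := by
        intro m n hmn hn h
        have h1 : a ^ (n - m) * x * (b ^ (n - m))⁻¹ = x := by
          have e1 : a ^ n = a ^ m * a ^ (n - m) := by rw [← pow_add]; congr 1; omega
          have e2 : b ^ n = b ^ m * b ^ (n - m) := by rw [← pow_add]; congr 1; omega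
          rw [e1, e2] at h
          have e3 : b ^ m * b ^ (n - m) = b ^ (n - m) * b ^ m := by
            rw [← pow_add, ← pow_add, add_comm]
          rw [e3, mul_inv_rev] at h
          have h' : a ^ m * x * (b ^ m)⁻¹ = a ^ m * (a ^ (n - m) * x * (b ^ (n - m))⁻¹) * (b ^ m)⁻¹ ∨
              a ^ m * x * (b ^ m)⁻¹ = a ^ m * (a ^ (n - m) * x) * ((b ^ m)⁻¹ * (b ^ (n - m))⁻¹) :=
            Or.inr (by rw [h]; simp only [mul_assoc])
          have e4 : (b ^ m)⁻¹ * (b ^ (n - m))⁻¹ = (b ^ (n - m))⁻¹ * (b ^ m)⁻¹ := by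
            rw [← mul_inv_rev, ← mul_inv_rev, e3]
          rcases h' with h' | h'
          · exact (mul_left_cancel (mul_right_cancel h')).symm
          · rw [e4, ← mul_assoc, mul_assoc (a ^ m), mul_assoc (a ^ m)] at h'
            rw [mul_assoc (a ^ m)] at h'
            have h'' : a ^ m * (x * (b ^ m)⁻¹) =
                a ^ m * ((a ^ (n - m) * x * (b ^ (n - m))⁻¹) * (b ^ m)⁻¹) := by
              rw [h']
            exact (mul_right_cancel (mul_left_cancel h'')).symm
        have h2 := key _ _ h1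
        by_contra hne
        have := Nat.le_of_dvd (by omega) h2
        omega
      intro m n h
      rcases le_total (m : ℕ) (n : ℕ) with hmn | hmn
      · exact Fin.ext (aux m n hmn n.2 h)
      · exact Fin.ext (aux n m hmn m.2 h.symm).symm
    have hF : Function.Bijective F := by
      rw [Nat.bijective_iff_injective_and_card]
      exact ⟨hFinj, by rw [card_aff, Nat.card_eq_fintype_card, Fintype.card_fin]⟩
    obtain ⟨n, hn⟩ := hF.2 y
    exact ⟨n, by rw [hA]; exact hn⟩

end prime

/-- **The commuting probability is not bounded below in terms of the order of an affine map.**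
For every prime `p` there is a group `G` of order `p (p - 1)` with an affine map that permutes all
the elements of `G` in a single cycle, so that its order is `|G|`, and with
`cp(G) ≤ 1 / (p - 1)`.  Hence there is no function `f` as in the question: for every
`ρ` with `0 < ρ ≤ 1` and every `ε > 0` there are a finite group `G` and an affine map of `G` of
order at least `ρ |G|` with `cp(G) < ε`. -/
theorem result :
    (∀ p : ℕ, p.Prime → ∃ (G : Type) (_ : Group G) (_ : Finite G) (α : MulAut G) (g : G),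
      Nat.card G = p * (p - 1) ∧ orderOf (affineMap g α) = Nat.card G ∧
      (∀ x y : G, ∃ n : ℕ, (affineMap g α ^ n) x = y) ∧ commProb G ≤ 1 / ((p : ℚ) - 1)) ∧
    (∀ ρ : ℝ, 0 < ρ → ρ ≤ 1 → ∀ ε : ℝ, 0 < ε →
      ∃ (G : Type) (_ : Group G) (_ : Finite G) (α : MulAut G) (g : G),
        ρ * (Nat.card G : ℝ) ≤ (orderOf (affineMap g α) : ℝ) ∧ ((commProb G : ℚ) : ℝ) < ε) := by
  have main : ∀ p : ℕ, p.Prime → ∃ (G : Type) (_ : Group G) (_ : Finite G) (α : MulAut G) (g : G),
      Nat.card G = p * (p - 1) ∧ orderOf (affineMap g α) = Nat.card G ∧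
      (∀ x y : G, ∃ n : ℕ, (affineMap g α ^ n) x = y) ∧ commProb G ≤ 1 / ((p : ℚ) - 1) := by
    intro p hp
    have : Fact p.Prime := ⟨hp⟩
    obtain ⟨α, g, h1, h2⟩ := exists_cycle p
    exact ⟨Aff (ZMod p), inferInstance, inferInstance, α, g, card_aff p, h1, h2, commProb_le p⟩
  refine ⟨main, ?_⟩
  intro ρ hρ hρ1 ε hε
  obtain ⟨N, hN⟩ := exists_nat_gt (1 / ε)
  obtain ⟨p, hpN, hp⟩ := Nat.exists_infinite_primes (N + 2)
  obtain ⟨G, i1, i2, α, g, h1, h2, h3, h4⟩ := main p hp
  refine ⟨G, i1, i2, α, g, ?_, ?_⟩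
  · rw [h2]
    have : (0 : ℝ) ≤ Nat.card G := Nat.cast_nonneg _
    nlinarith
  · have h5 : ((commProb G : ℚ) : ℝ) ≤ ((1 / ((p : ℚ) - 1) : ℚ) : ℝ) := by exact_mod_cast h4
    refine lt_of_le_of_lt h5 ?_
    push_cast
    have h6 : (N : ℝ) + 2 ≤ p := by exact_mod_cast hpN
    have h7 : 0 < 1 / ε := by positivity
    have h8 : 1 / ε < (p : ℝ) - 1 := by linarith
    rw [div_lt_iff₀ (by linarith)]
    have h9 := mul_lt_mul_of_pos_left h8 hε
    rw [mul_one_div_cancel hε.ne'] at h9
    linarith

end Pool.Agent.Results.MP_1004d8_al.AffineCycleSmallCp
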